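import Pool.Agent.Strip051.Box.C2
import Pool.Agent.Strip051.Box.S30
import Pool.Agent.Strip051.LB.Fc.F2
import Pool.Agent.Strip051.LB.Fd.F2

/-! # LINE tight chart ChA00V1_pm_123z -/

namespace Pool.Agent.Strip051.LB.ChA00V1_pm_123z

open Pool.Agent.Strip051.Box Pool.Agent.Strip051.Box2

open Pool.Agent.Strip051.LB.Fd Pool.Agent.Strip051.LB.Fd.F2 Pool.Agent.Strip051.LB.Fc Pool.Agent.Strip051.LB.Fc.F2 Pool.Agent.Strip051.LB.Fn Pool.Agent.Strip051.LB.Fn.F2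

/-- coordinates of a point of the box -/
def In (b : Bx) (E : Pt) (x1 x2 : ℝ) : Prop :=
  (S : ℝ) * x1 = ((b.p1 : ℝ) - b.n1) + b.q1 * E.e1 ∧ (S : ℝ) * x2 = ((b.p2 : ℝ) - b.n2) + b.q2 * E.e2

variable {b : Bx} {E : Pt} {x1 x2 : ℝ}

def t0 (b : Bx) : TM := X1 b
noncomputable def v0 (x1 _x2 : ℝ) : ℝ := x1
theorem h0 (h : In b E x1 x2) : Enc S E (t0 b) (v0 x1 x2) := enc_X1 h.1

def t1 (b : Bx) : TM := X2 b
noncomputable def v1 (_x1 x2 : ℝ) : ℝ := x2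
theorem h1 (h : In b E x1 x2) : Enc S E (t1 b) (v1 x1 x2) := enc_X2 h.2

def t2 (_b : Bx) : TM := tconst 1859775393 0 1
noncomputable def v2 (_x1 _x2 : ℝ) : ℝ := Real.sqrt ((3 : ℕ) : ℝ)
theorem h2 (_h : In b E x1 x2) : Enc S E (t2 b) (v2 x1 x2) := enc_sqrtn E (by decide) (by decide)

def t3 (b : Bx) : TM := tscale 1 2 (t2 b)
noncomputable def v3 (x1 x2 : ℝ) : ℝ := ((1 : ℕ) : ℝ) / ((2 : ℕ) : ℝ) * v2 x1 x2
theorem h3 (h : In b E x1 x2) : Enc S E (t3 b) (v3 x1 x2) := enc_scale 1 (by norm_num) (h2 h)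

def t4 (b : Bx) : TM := tsq S (t0 b)
noncomputable def v4 (x1 x2 : ℝ) : ℝ := (v0 x1 x2) ^ 2
theorem h4 (h : In b E x1 x2) : Enc S E (t4 b) (v4 x1 x2) := enc_sq hS (h0 h)

def t5 (_b : Bx) : TM := tconst (Nat.mul 3 S) 0 0
noncomputable def v5 (_x1 _x2 : ℝ) : ℝ := ((3 : ℕ) : ℝ)
theorem h5 (_h : In b E x1 x2) : Enc S E (t5 b) (v5 x1 x2) := enc_nc E 3

def t6 (b : Bx) : TM := tsub (t5 b) (t4 b)
noncomputable def v6 (x1 x2 : ℝ) : ℝ := v5 x1 x2 - v4 x1 x2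
theorem h6 (h : In b E x1 x2) : Enc S E (t6 b) (v6 x1 x2) := enc_sub (h5 h) (h4 h)

def t7 (b : Bx) : TM := tsqrt S (t6 b)
noncomputable def v7 (x1 x2 : ℝ) : ℝ := Real.sqrt (v6 x1 x2)
theorem h7 (h : In b E x1 x2) : Enc S E (t7 b) (v7 x1 x2) := enc_sqrt hS (h6 h)

def t8 (b : Bx) : TM := tmul S (t0 b) (t1 b)
noncomputable def v8 (x1 x2 : ℝ) : ℝ := v0 x1 x2 * v1 x1 x2
theorem h8 (h : In b E x1 x2) : Enc S E (t8 b) (v8 x1 x2) := enc_mul hS (h0 h) (h1 h)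

def t9 (b : Bx) : TM := tadd (t3 b) (t8 b)
noncomputable def v9 (x1 x2 : ℝ) : ℝ := v3 x1 x2 + v8 x1 x2
theorem h9 (h : In b E x1 x2) : Enc S E (t9 b) (v9 x1 x2) := enc_add (h3 h) (h8 h)

def t10 (b : Bx) : TM := tsub (t7 b) (t9 b)
noncomputable def v10 (x1 x2 : ℝ) : ℝ := v7 x1 x2 - v9 x1 x2
theorem h10 (h : In b E x1 x2) : Enc S E (t10 b) (v10 x1 x2) := enc_sub (h7 h) (h9 h)

def t11 (b : Bx) : TM := tsq S (t10 b)
noncomputable def v11 (x1 x2 : ℝ) : ℝ := (v10 x1 x2) ^ 2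
theorem h11 (h : In b E x1 x2) : Enc S E (t11 b) (v11 x1 x2) := enc_sq hS (h10 h)

def t12 (_b : Bx) : TM := tconst (Nat.mul 1 S) 0 0
noncomputable def v12 (_x1 _x2 : ℝ) : ℝ := ((1 : ℕ) : ℝ)
theorem h12 (_h : In b E x1 x2) : Enc S E (t12 b) (v12 x1 x2) := enc_nc E 1

def t13 (b : Bx) : TM := tsub (t12 b) (t11 b)
noncomputable def v13 (x1 x2 : ℝ) : ℝ := v12 x1 x2 - v11 x1 x2
theorem h13 (h : In b E x1 x2) : Enc S E (t13 b) (v13 x1 x2) := enc_sub (h12 h) (h11 h)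

def t14 (b : Bx) : TM := tsqrtg S (t13 b)
noncomputable def v14 (x1 x2 : ℝ) : ℝ := Real.sqrt (v13 x1 x2)
theorem h14 (h : In b E x1 x2) : Enc S E (t14 b) (v14 x1 x2) := enc_sqrtg hS (h13 h)

def t16 (_b : Bx) : TM := tconst (Nat.div (Nat.mul 1 S) 2) 0 1
noncomputable def v16 (_x1 _x2 : ℝ) : ℝ := ((1 : ℕ) : ℝ) / ((2 : ℕ) : ℝ)
theorem h16 (_h : In b E x1 x2) : Enc S E (t16 b) (v16 x1 x2) := enc_rat E 1 (by norm_num)

def t17 (b : Bx) : TM := tscale 1 2 (t14 b)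
noncomputable def v17 (x1 x2 : ℝ) : ℝ := ((1 : ℕ) : ℝ) / ((2 : ℕ) : ℝ) * v14 x1 x2
theorem h17 (h : In b E x1 x2) : Enc S E (t17 b) (v17 x1 x2) := enc_scale 1 (by norm_num) (h14 h)

def t18 (b : Bx) : TM := tmul S (t10 b) (t3 b)
noncomputable def v18 (x1 x2 : ℝ) : ℝ := v10 x1 x2 * v3 x1 x2
theorem h18 (h : In b E x1 x2) : Enc S E (t18 b) (v18 x1 x2) := enc_mul hS (h10 h) (h3 h)

def t20 (b : Bx) : TM := tscale 1 2 (t10 b)
noncomputable def v20 (x1 x2 : ℝ) : ℝ := ((1 : ℕ) : ℝ) / ((2 : ℕ) : ℝ) * v10 x1 x2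
theorem h20 (h : In b E x1 x2) : Enc S E (t20 b) (v20 x1 x2) := enc_scale 1 (by norm_num) (h10 h)

def t21 (b : Bx) : TM := tmul S (t14 b) (t3 b)
noncomputable def v21 (x1 x2 : ℝ) : ℝ := v14 x1 x2 * v3 x1 x2
theorem h21 (h : In b E x1 x2) : Enc S E (t21 b) (v21 x1 x2) := enc_mul hS (h14 h) (h3 h)

def t22 (b : Bx) : TM := tadd (t20 b) (t21 b)
noncomputable def v22 (x1 x2 : ℝ) : ℝ := v20 x1 x2 + v21 x1 x2
theorem h22 (h : In b E x1 x2) : Enc S E (t22 b) (v22 x1 x2) := enc_add (h20 h) (h21 h)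

def t28 (b : Bx) : TM := tsq S (t9 b)
noncomputable def v28 (x1 x2 : ℝ) : ℝ := (v9 x1 x2) ^ 2
theorem h28 (h : In b E x1 x2) : Enc S E (t28 b) (v28 x1 x2) := enc_sq hS (h9 h)

def t29 (b : Bx) : TM := tsub (t12 b) (t28 b)
noncomputable def v29 (x1 x2 : ℝ) : ℝ := v12 x1 x2 - v28 x1 x2
theorem h29 (h : In b E x1 x2) : Enc S E (t29 b) (v29 x1 x2) := enc_sub (h12 h) (h28 h)

def t30 (b : Bx) : TM := tsqrtg S (t29 b)
noncomputable def v30 (x1 x2 : ℝ) : ℝ := Real.sqrt (v29 x1 x2)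
theorem h30 (h : In b E x1 x2) : Enc S E (t30 b) (v30 x1 x2) := enc_sqrtg hS (h29 h)

def t31 (b : Bx) : TM := tsub (t18 b) (t17 b)
noncomputable def v31 (x1 x2 : ℝ) : ℝ := v18 x1 x2 - v17 x1 x2
theorem h31 (h : In b E x1 x2) : Enc S E (t31 b) (v31 x1 x2) := enc_sub (h18 h) (h17 h)

def t33 (b : Bx) : TM := tsub (t14 b) (t30 b)
noncomputable def v33 (x1 x2 : ℝ) : ℝ := v14 x1 x2 - v30 x1 x2
theorem h33 (h : In b E x1 x2) : Enc S E (t33 b) (v33 x1 x2) := enc_sub (h14 h) (h30 h)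

def t34 (b : Bx) : TM := tadd (t10 b) (t9 b)
noncomputable def v34 (x1 x2 : ℝ) : ℝ := v10 x1 x2 + v9 x1 x2
theorem h34 (h : In b E x1 x2) : Enc S E (t34 b) (v34 x1 x2) := enc_add (h10 h) (h9 h)

def t36 (b : Bx) : TM := tnat 2 (t14 b)
noncomputable def v36 (x1 x2 : ℝ) : ℝ := ((2 : ℕ) : ℝ) * v14 x1 x2
theorem h36 (h : In b E x1 x2) : Enc S E (t36 b) (v36 x1 x2) := enc_nat 2 (h14 h)

def t37 (b : Bx) : TM := tadd (t12 b) (t36 b)
noncomputable def v37 (x1 x2 : ℝ) : ℝ := v12 x1 x2 + v36 x1 x2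
theorem h37 (h : In b E x1 x2) : Enc S E (t37 b) (v37 x1 x2) := enc_add (h12 h) (h36 h)

def t38 (b : Bx) : TM := tmul S (t2 b) (t10 b)
noncomputable def v38 (x1 x2 : ℝ) : ℝ := v2 x1 x2 * v10 x1 x2
theorem h38 (h : In b E x1 x2) : Enc S E (t38 b) (v38 x1 x2) := enc_mul hS (h2 h) (h10 h)

def t39 (b : Bx) : TM := tsub (t38 b) (t14 b)
noncomputable def v39 (x1 x2 : ℝ) : ℝ := v38 x1 x2 - v14 x1 x2
theorem h39 (h : In b E x1 x2) : Enc S E (t39 b) (v39 x1 x2) := enc_sub (h38 h) (h14 h)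

def t40 (b : Bx) : TM := tmul S (t37 b) (t39 b)
noncomputable def v40 (x1 x2 : ℝ) : ℝ := v37 x1 x2 * v39 x1 x2
theorem h40 (h : In b E x1 x2) : Enc S E (t40 b) (v40 x1 x2) := enc_mul hS (h37 h) (h39 h)

def t41 (b : Bx) : TM := tadd (t12 b) (t38 b)
noncomputable def v41 (x1 x2 : ℝ) : ℝ := v12 x1 x2 + v38 x1 x2
theorem h41 (h : In b E x1 x2) : Enc S E (t41 b) (v41 x1 x2) := enc_add (h12 h) (h38 h)

def t42 (b : Bx) : TM := tsub (t41 b) (t14 b)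
noncomputable def v42 (x1 x2 : ℝ) : ℝ := v41 x1 x2 - v14 x1 x2
theorem h42 (h : In b E x1 x2) : Enc S E (t42 b) (v42 x1 x2) := enc_sub (h41 h) (h14 h)

def t43 (b : Bx) : TM := tnat 2 (t42 b)
noncomputable def v43 (x1 x2 : ℝ) : ℝ := ((2 : ℕ) : ℝ) * v42 x1 x2
theorem h43 (h : In b E x1 x2) : Enc S E (t43 b) (v43 x1 x2) := enc_nat 2 (h42 h)

def t44 (b : Bx) : TM := tinv S (t43 b)
noncomputable def v44 (x1 x2 : ℝ) : ℝ := (v43 x1 x2)⁻¹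
theorem h44 (h : In b E x1 x2) : Enc S E (t44 b) (v44 x1 x2) := enc_inv hS (h43 h)

def t45 (b : Bx) : TM := tmul S (t40 b) (t44 b)
noncomputable def v45 (x1 x2 : ℝ) : ℝ := v40 x1 x2 * v44 x1 x2
theorem h45 (h : In b E x1 x2) : Enc S E (t45 b) (v45 x1 x2) := enc_mul hS (h40 h) (h44 h)

def t46 (b : Bx) : TM := tsq S (t33 b)
noncomputable def v46 (x1 x2 : ℝ) : ℝ := (v33 x1 x2) ^ 2
theorem h46 (h : In b E x1 x2) : Enc S E (t46 b) (v46 x1 x2) := enc_sq hS (h33 h)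

def t47 (b : Bx) : TM := tsub (t5 b) (t46 b)
noncomputable def v47 (x1 x2 : ℝ) : ℝ := v5 x1 x2 - v46 x1 x2
theorem h47 (h : In b E x1 x2) : Enc S E (t47 b) (v47 x1 x2) := enc_sub (h5 h) (h46 h)

def t48 (b : Bx) : TM := tsq S (t34 b)
noncomputable def v48 (x1 x2 : ℝ) : ℝ := (v34 x1 x2) ^ 2
theorem h48 (h : In b E x1 x2) : Enc S E (t48 b) (v48 x1 x2) := enc_sq hS (h34 h)

def t53 (b : Bx) : TM := tadd (t9 b) (t22 b)
noncomputable def v53 (x1 x2 : ℝ) : ℝ := v9 x1 x2 + v22 x1 x2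
theorem h53 (h : In b E x1 x2) : Enc S E (t53 b) (v53 x1 x2) := enc_add (h9 h) (h22 h)

def t56 (b : Bx) : TM := tadd (t30 b) (t31 b)
noncomputable def v56 (x1 x2 : ℝ) : ℝ := v30 x1 x2 + v31 x1 x2
theorem h56 (h : In b E x1 x2) : Enc S E (t56 b) (v56 x1 x2) := enc_add (h30 h) (h31 h)

def t57 (b : Bx) : TM := tinv S (t56 b)
noncomputable def v57 (x1 x2 : ℝ) : ℝ := (v56 x1 x2)⁻¹
theorem h57 (h : In b E x1 x2) : Enc S E (t57 b) (v57 x1 x2) := enc_inv hS (h56 h)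

def t58 (b : Bx) : TM := tmul S (t53 b) (t57 b)
noncomputable def v58 (x1 x2 : ℝ) : ℝ := v53 x1 x2 * v57 x1 x2
theorem h58 (h : In b E x1 x2) : Enc S E (t58 b) (v58 x1 x2) := enc_mul hS (h53 h) (h57 h)

def t59 (b : Bx) : TM := tsub (t14 b) (t31 b)
noncomputable def v59 (x1 x2 : ℝ) : ℝ := v14 x1 x2 - v31 x1 x2
theorem h59 (h : In b E x1 x2) : Enc S E (t59 b) (v59 x1 x2) := enc_sub (h14 h) (h31 h)

def t62 (b : Bx) : TM := tadd (t33 b) (t59 b)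
noncomputable def v62 (x1 x2 : ℝ) : ℝ := v33 x1 x2 + v59 x1 x2
theorem h62 (h : In b E x1 x2) : Enc S E (t62 b) (v62 x1 x2) := enc_add (h33 h) (h59 h)

def t63 (b : Bx) : TM := tmul S (t58 b) (t62 b)
noncomputable def v63 (x1 x2 : ℝ) : ℝ := v58 x1 x2 * v62 x1 x2
theorem h63 (h : In b E x1 x2) : Enc S E (t63 b) (v63 x1 x2) := enc_mul hS (h58 h) (h62 h)

def t66 (b : Bx) : TM := tadd (t10 b) (t22 b)
noncomputable def v66 (x1 x2 : ℝ) : ℝ := v10 x1 x2 + v22 x1 x2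
theorem h66 (h : In b E x1 x2) : Enc S E (t66 b) (v66 x1 x2) := enc_add (h10 h) (h22 h)

def t68 (b : Bx) : TM := tadd (t34 b) (t66 b)
noncomputable def v68 (x1 x2 : ℝ) : ℝ := v34 x1 x2 + v66 x1 x2
theorem h68 (h : In b E x1 x2) : Enc S E (t68 b) (v68 x1 x2) := enc_add (h34 h) (h66 h)

def t71 (b : Bx) : TM := tadd (t63 b) (t68 b)
noncomputable def v71 (x1 x2 : ℝ) : ℝ := v63 x1 x2 + v68 x1 x2
theorem h71 (h : In b E x1 x2) : Enc S E (t71 b) (v71 x1 x2) := enc_add (h63 h) (h68 h)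

def t72 (b : Bx) : TM := tinv S (t2 b)
noncomputable def v72 (x1 x2 : ℝ) : ℝ := (v2 x1 x2)⁻¹
theorem h72 (h : In b E x1 x2) : Enc S E (t72 b) (v72 x1 x2) := enc_inv hS (h2 h)

def t73 (b : Bx) : TM := tmul S (t34 b) (t72 b)
noncomputable def v73 (x1 x2 : ℝ) : ℝ := v34 x1 x2 * v72 x1 x2
theorem h73 (h : In b E x1 x2) : Enc S E (t73 b) (v73 x1 x2) := enc_mul hS (h34 h) (h72 h)

def t74 (b : Bx) : TM := tsub (t73 b) (t33 b)
noncomputable def v74 (x1 x2 : ℝ) : ℝ := v73 x1 x2 - v33 x1 x2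
theorem h74 (h : In b E x1 x2) : Enc S E (t74 b) (v74 x1 x2) := enc_sub (h73 h) (h33 h)

def t76 (b : Bx) : TM := tadd (t12 b) (t73 b)
noncomputable def v76 (x1 x2 : ℝ) : ℝ := v12 x1 x2 + v73 x1 x2
theorem h76 (h : In b E x1 x2) : Enc S E (t76 b) (v76 x1 x2) := enc_add (h12 h) (h73 h)

def t77 (b : Bx) : TM := tsub (t76 b) (t33 b)
noncomputable def v77 (x1 x2 : ℝ) : ℝ := v76 x1 x2 - v33 x1 x2
theorem h77 (h : In b E x1 x2) : Enc S E (t77 b) (v77 x1 x2) := enc_sub (h76 h) (h33 h)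

def t78 (b : Bx) : TM := tinv S (t77 b)
noncomputable def v78 (x1 x2 : ℝ) : ℝ := (v77 x1 x2)⁻¹
theorem h78 (h : In b E x1 x2) : Enc S E (t78 b) (v78 x1 x2) := enc_inv hS (h77 h)

def t80 (b : Bx) : TM := tmul S (t66 b) (t72 b)
noncomputable def v80 (x1 x2 : ℝ) : ℝ := v66 x1 x2 * v72 x1 x2
theorem h80 (h : In b E x1 x2) : Enc S E (t80 b) (v80 x1 x2) := enc_mul hS (h66 h) (h72 h)

def t82 (b : Bx) : TM := tsub (t80 b) (t59 b)
noncomputable def v82 (x1 x2 : ℝ) : ℝ := v80 x1 x2 - v59 x1 x2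
theorem h82 (h : In b E x1 x2) : Enc S E (t82 b) (v82 x1 x2) := enc_sub (h80 h) (h59 h)

def t83 (b : Bx) : TM := tsub (t58 b) (t72 b)
noncomputable def v83 (x1 x2 : ℝ) : ℝ := v58 x1 x2 - v72 x1 x2
theorem h83 (h : In b E x1 x2) : Enc S E (t83 b) (v83 x1 x2) := enc_sub (h58 h) (h72 h)

def t84 (b : Bx) : TM := tmul S (t59 b) (t82 b)
noncomputable def v84 (x1 x2 : ℝ) : ℝ := v59 x1 x2 * v82 x1 x2
theorem h84 (h : In b E x1 x2) : Enc S E (t84 b) (v84 x1 x2) := enc_mul hS (h59 h) (h82 h)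

def t85 (b : Bx) : TM := tmul S (t58 b) (t74 b)
noncomputable def v85 (x1 x2 : ℝ) : ℝ := v58 x1 x2 * v74 x1 x2
theorem h85 (h : In b E x1 x2) : Enc S E (t85 b) (v85 x1 x2) := enc_mul hS (h58 h) (h74 h)

def t87 (b : Bx) : TM := tmul S (t59 b) (t83 b)
noncomputable def v87 (x1 x2 : ℝ) : ℝ := v59 x1 x2 * v83 x1 x2
theorem h87 (h : In b E x1 x2) : Enc S E (t87 b) (v87 x1 x2) := enc_mul hS (h59 h) (h83 h)

def t88 (b : Bx) : TM := tsub (t87 b) (t85 b)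
noncomputable def v88 (x1 x2 : ℝ) : ℝ := v87 x1 x2 - v85 x1 x2
theorem h88 (h : In b E x1 x2) : Enc S E (t88 b) (v88 x1 x2) := enc_sub (h87 h) (h85 h)

def t89 (b : Bx) : TM := tadd (t12 b) (t80 b)
noncomputable def v89 (x1 x2 : ℝ) : ℝ := v12 x1 x2 + v80 x1 x2
theorem h89 (h : In b E x1 x2) : Enc S E (t89 b) (v89 x1 x2) := enc_add (h12 h) (h80 h)

def t90 (b : Bx) : TM := tsub (t89 b) (t59 b)
noncomputable def v90 (x1 x2 : ℝ) : ℝ := v89 x1 x2 - v59 x1 x2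
theorem h90 (h : In b E x1 x2) : Enc S E (t90 b) (v90 x1 x2) := enc_sub (h89 h) (h59 h)

def t91 (b : Bx) : TM := tinv S (t90 b)
noncomputable def v91 (x1 x2 : ℝ) : ℝ := (v90 x1 x2)⁻¹
theorem h91 (h : In b E x1 x2) : Enc S E (t91 b) (v91 x1 x2) := enc_inv hS (h90 h)

def t92 (b : Bx) : TM := tmul S (t78 b) (t91 b)
noncomputable def v92 (x1 x2 : ℝ) : ℝ := v78 x1 x2 * v91 x1 x2
theorem h92 (h : In b E x1 x2) : Enc S E (t92 b) (v92 x1 x2) := enc_mul hS (h78 h) (h91 h)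

def t93 (b : Bx) : TM := tmul S (t83 b) (t92 b)
noncomputable def v93 (x1 x2 : ℝ) : ℝ := v83 x1 x2 * v92 x1 x2
theorem h93 (h : In b E x1 x2) : Enc S E (t93 b) (v93 x1 x2) := enc_mul hS (h83 h) (h92 h)

def t96 (b : Bx) : TM := tmul S (t88 b) (t78 b)
noncomputable def v96 (x1 x2 : ℝ) : ℝ := v88 x1 x2 * v78 x1 x2
theorem h96 (h : In b E x1 x2) : Enc S E (t96 b) (v96 x1 x2) := enc_mul hS (h88 h) (h78 h)

def t97 (b : Bx) : TM := tmul S (t84 b) (t93 b)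
noncomputable def v97 (x1 x2 : ℝ) : ℝ := v84 x1 x2 * v93 x1 x2
theorem h97 (h : In b E x1 x2) : Enc S E (t97 b) (v97 x1 x2) := enc_mul hS (h84 h) (h93 h)

def t99 (b : Bx) : TM := tsub (t96 b) (t97 b)
noncomputable def v99 (x1 x2 : ℝ) : ℝ := v96 x1 x2 - v97 x1 x2
theorem h99 (h : In b E x1 x2) : Enc S E (t99 b) (v99 x1 x2) := enc_sub (h96 h) (h97 h)

def t100 (b : Bx) : TM := tadd (t2 b) (t7 b)
noncomputable def v100 (x1 x2 : ℝ) : ℝ := v2 x1 x2 + v7 x1 x2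
theorem h100 (h : In b E x1 x2) : Enc S E (t100 b) (v100 x1 x2) := enc_add (h2 h) (h7 h)

def t101 (b : Bx) : TM := tinv S (t100 b)
noncomputable def v101 (x1 x2 : ℝ) : ℝ := (v100 x1 x2)⁻¹
theorem h101 (h : In b E x1 x2) : Enc S E (t101 b) (v101 x1 x2) := enc_inv hS (h100 h)

def t102 (b : Bx) : TM := tmul S (t0 b) (t101 b)
noncomputable def v102 (x1 x2 : ℝ) : ℝ := v0 x1 x2 * v101 x1 x2
theorem h102 (h : In b E x1 x2) : Enc S E (t102 b) (v102 x1 x2) := enc_mul hS (h0 h) (h101 h)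

def t103 (b : Bx) : TM := tadd (t1 b) (t102 b)
noncomputable def v103 (x1 x2 : ℝ) : ℝ := v1 x1 x2 + v102 x1 x2
theorem h103 (h : In b E x1 x2) : Enc S E (t103 b) (v103 x1 x2) := enc_add (h1 h) (h102 h)

def t104 (b : Bx) : TM := tadd (t3 b) (t10 b)
noncomputable def v104 (x1 x2 : ℝ) : ℝ := v3 x1 x2 + v10 x1 x2
theorem h104 (h : In b E x1 x2) : Enc S E (t104 b) (v104 x1 x2) := enc_add (h3 h) (h10 h)

def t105 (b : Bx) : TM := tadd (t14 b) (t16 b)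
noncomputable def v105 (x1 x2 : ℝ) : ℝ := v14 x1 x2 + v16 x1 x2
theorem h105 (h : In b E x1 x2) : Enc S E (t105 b) (v105 x1 x2) := enc_add (h14 h) (h16 h)

def t106 (b : Bx) : TM := tinv S (t105 b)
noncomputable def v106 (x1 x2 : ℝ) : ℝ := (v105 x1 x2)⁻¹
theorem h106 (h : In b E x1 x2) : Enc S E (t106 b) (v106 x1 x2) := enc_inv hS (h105 h)

def t107 (b : Bx) : TM := tmul S (t104 b) (t106 b)
noncomputable def v107 (x1 x2 : ℝ) : ℝ := v104 x1 x2 * v106 x1 x2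
theorem h107 (h : In b E x1 x2) : Enc S E (t107 b) (v107 x1 x2) := enc_mul hS (h104 h) (h106 h)

def t108 (b : Bx) : TM := tmul S (t103 b) (t107 b)
noncomputable def v108 (x1 x2 : ℝ) : ℝ := v103 x1 x2 * v107 x1 x2
theorem h108 (h : In b E x1 x2) : Enc S E (t108 b) (v108 x1 x2) := enc_mul hS (h103 h) (h107 h)

def t109 (b : Bx) : TM := tadd (t9 b) (t3 b)
noncomputable def v109 (x1 x2 : ℝ) : ℝ := v9 x1 x2 + v3 x1 x2
theorem h109 (h : In b E x1 x2) : Enc S E (t109 b) (v109 x1 x2) := enc_add (h9 h) (h3 h)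

def t110 (b : Bx) : TM := tmul S (t1 b) (t109 b)
noncomputable def v110 (x1 x2 : ℝ) : ℝ := v1 x1 x2 * v109 x1 x2
theorem h110 (h : In b E x1 x2) : Enc S E (t110 b) (v110 x1 x2) := enc_mul hS (h1 h) (h109 h)

def t111 (b : Bx) : TM := tadd (t30 b) (t16 b)
noncomputable def v111 (x1 x2 : ℝ) : ℝ := v30 x1 x2 + v16 x1 x2
theorem h111 (h : In b E x1 x2) : Enc S E (t111 b) (v111 x1 x2) := enc_add (h30 h) (h16 h)

def t112 (b : Bx) : TM := tinv S (t111 b)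
noncomputable def v112 (x1 x2 : ℝ) : ℝ := (v111 x1 x2)⁻¹
theorem h112 (h : In b E x1 x2) : Enc S E (t112 b) (v112 x1 x2) := enc_inv hS (h111 h)

def t113 (b : Bx) : TM := tmul S (t110 b) (t112 b)
noncomputable def v113 (x1 x2 : ℝ) : ℝ := v110 x1 x2 * v112 x1 x2
theorem h113 (h : In b E x1 x2) : Enc S E (t113 b) (v113 x1 x2) := enc_mul hS (h110 h) (h112 h)

def t114 (b : Bx) : TM := tadd (t108 b) (t113 b)
noncomputable def v114 (x1 x2 : ℝ) : ℝ := v108 x1 x2 + v113 x1 x2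
theorem h114 (h : In b E x1 x2) : Enc S E (t114 b) (v114 x1 x2) := enc_add (h108 h) (h113 h)

def t115 (b : Bx) : TM := tsq S (t103 b)
noncomputable def v115 (x1 x2 : ℝ) : ℝ := (v103 x1 x2) ^ 2
theorem h115 (h : In b E x1 x2) : Enc S E (t115 b) (v115 x1 x2) := enc_sq hS (h103 h)

def t116 (b : Bx) : TM := tscale 3 2 (t107 b)
noncomputable def v116 (x1 x2 : ℝ) : ℝ := ((3 : ℕ) : ℝ) / ((2 : ℕ) : ℝ) * v107 x1 x2
theorem h116 (h : In b E x1 x2) : Enc S E (t116 b) (v116 x1 x2) := enc_scale 3 (by norm_num) (h107 h)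

def t117 (b : Bx) : TM := tadd (t3 b) (t116 b)
noncomputable def v117 (x1 x2 : ℝ) : ℝ := v3 x1 x2 + v116 x1 x2
theorem h117 (h : In b E x1 x2) : Enc S E (t117 b) (v117 x1 x2) := enc_add (h3 h) (h116 h)

def t118 (b : Bx) : TM := tmul S (t115 b) (t117 b)
noncomputable def v118 (x1 x2 : ℝ) : ℝ := v115 x1 x2 * v117 x1 x2
theorem h118 (h : In b E x1 x2) : Enc S E (t118 b) (v118 x1 x2) := enc_mul hS (h115 h) (h117 h)

def t119 (b : Bx) : TM := tmul S (t118 b) (t106 b)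
noncomputable def v119 (x1 x2 : ℝ) : ℝ := v118 x1 x2 * v106 x1 x2
theorem h119 (h : In b E x1 x2) : Enc S E (t119 b) (v119 x1 x2) := enc_mul hS (h118 h) (h106 h)

def t121 (b : Bx) : TM := kx3z_t (t33 b) (t34 b) (t0 b) (t114 b)
noncomputable def v121 (x1 x2 : ℝ) : ℝ := kx3z_v (v33 x1 x2) (v34 x1 x2) (v0 x1 x2) (v114 x1 x2)
theorem h121 (h : In b E x1 x2) : Enc S E (t121 b) (v121 x1 x2) := kx3z_enc (h33 h) (h34 h) (h0 h) (h114 h)

def t126 (b : Bx) : TM := tmul S (t71 b) (t121 b)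
noncomputable def v126 (x1 x2 : ℝ) : ℝ := v71 x1 x2 * v121 x1 x2
theorem h126 (h : In b E x1 x2) : Enc S E (t126 b) (v126 x1 x2) := enc_mul hS (h71 h) (h121 h)

def t127 (b : Bx) : TM := tadd (t99 b) (t126 b)
noncomputable def v127 (x1 x2 : ℝ) : ℝ := v99 x1 x2 + v126 x1 x2
theorem h127 (h : In b E x1 x2) : Enc S E (t127 b) (v127 x1 x2) := enc_add (h99 h) (h126 h)

def t128 (b : Bx) : TM := tmul S (t14 b) (t9 b)
noncomputable def v128 (x1 x2 : ℝ) : ℝ := v14 x1 x2 * v9 x1 x2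
theorem h128 (h : In b E x1 x2) : Enc S E (t128 b) (v128 x1 x2) := enc_mul hS (h14 h) (h9 h)

def t129 (b : Bx) : TM := tmul S (t30 b) (t10 b)
noncomputable def v129 (x1 x2 : ℝ) : ℝ := v30 x1 x2 * v10 x1 x2
theorem h129 (h : In b E x1 x2) : Enc S E (t129 b) (v129 x1 x2) := enc_mul hS (h30 h) (h10 h)

def t131 (b : Bx) : TM := tadd (t128 b) (t129 b)
noncomputable def v131 (x1 x2 : ℝ) : ℝ := v128 x1 x2 + v129 x1 x2
theorem h131 (h : In b E x1 x2) : Enc S E (t131 b) (v131 x1 x2) := enc_add (h128 h) (h129 h)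

def t132 (b : Bx) : TM := tmul S (t131 b) (t72 b)
noncomputable def v132 (x1 x2 : ℝ) : ℝ := v131 x1 x2 * v72 x1 x2
theorem h132 (h : In b E x1 x2) : Enc S E (t132 b) (v132 x1 x2) := enc_mul hS (h131 h) (h72 h)

def t133 (b : Bx) : TM := tsub (t132 b) (t16 b)
noncomputable def v133 (x1 x2 : ℝ) : ℝ := v132 x1 x2 - v16 x1 x2
theorem h133 (h : In b E x1 x2) : Enc S E (t133 b) (v133 x1 x2) := enc_sub (h132 h) (h16 h)

def t137 (b : Bx) : TM := tmul S (t58 b) (t10 b)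
noncomputable def v137 (x1 x2 : ℝ) : ℝ := v58 x1 x2 * v10 x1 x2
theorem h137 (h : In b E x1 x2) : Enc S E (t137 b) (v137 x1 x2) := enc_mul hS (h58 h) (h10 h)

def t139 (b : Bx) : TM := tsub (t137 b) (t14 b)
noncomputable def v139 (x1 x2 : ℝ) : ℝ := v137 x1 x2 - v14 x1 x2
theorem h139 (h : In b E x1 x2) : Enc S E (t139 b) (v139 x1 x2) := enc_sub (h137 h) (h14 h)

def t141 (b : Bx) : TM := tmul S (t139 b) (t72 b)
noncomputable def v141 (x1 x2 : ℝ) : ℝ := v139 x1 x2 * v72 x1 x2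
theorem h141 (h : In b E x1 x2) : Enc S E (t141 b) (v141 x1 x2) := enc_mul hS (h139 h) (h72 h)

def t143 (b : Bx) : TM := tsub (t10 b) (t3 b)
noncomputable def v143 (x1 x2 : ℝ) : ℝ := v10 x1 x2 - v3 x1 x2
theorem h143 (h : In b E x1 x2) : Enc S E (t143 b) (v143 x1 x2) := enc_sub (h10 h) (h3 h)

def t144 (b : Bx) : TM := tsub (t9 b) (t3 b)
noncomputable def v144 (x1 x2 : ℝ) : ℝ := v9 x1 x2 - v3 x1 x2
theorem h144 (h : In b E x1 x2) : Enc S E (t144 b) (v144 x1 x2) := enc_sub (h9 h) (h3 h)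

def t145 (b : Bx) : TM := tsub (t34 b) (t2 b)
noncomputable def v145 (x1 x2 : ℝ) : ℝ := v34 x1 x2 - v2 x1 x2
theorem h145 (h : In b E x1 x2) : Enc S E (t145 b) (v145 x1 x2) := enc_sub (h34 h) (h2 h)

def t146 (b : Bx) : TM := tadd (t127 b) (t58 b)
noncomputable def v146 (x1 x2 : ℝ) : ℝ := v127 x1 x2 + v58 x1 x2
theorem h146 (h : In b E x1 x2) : Enc S E (t146 b) (v146 x1 x2) := enc_add (h127 h) (h58 h)

def t148 (b : Bx) : TM := tmul S (t143 b) (t58 b)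
noncomputable def v148 (x1 x2 : ℝ) : ℝ := v143 x1 x2 * v58 x1 x2
theorem h148 (h : In b E x1 x2) : Enc S E (t148 b) (v148 x1 x2) := enc_mul hS (h143 h) (h58 h)

def t151 (b : Bx) : TM := tsub (t45 b) (t148 b)
noncomputable def v151 (x1 x2 : ℝ) : ℝ := v45 x1 x2 - v148 x1 x2
theorem h151 (h : In b E x1 x2) : Enc S E (t151 b) (v151 x1 x2) := enc_sub (h45 h) (h148 h)

def t152 (b : Bx) : TM := tmul S (t144 b) (t146 b)
noncomputable def v152 (x1 x2 : ℝ) : ℝ := v144 x1 x2 * v146 x1 x2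
theorem h152 (h : In b E x1 x2) : Enc S E (t152 b) (v152 x1 x2) := enc_mul hS (h144 h) (h146 h)

def t153 (b : Bx) : TM := tsub (t151 b) (t152 b)
noncomputable def v153 (x1 x2 : ℝ) : ℝ := v151 x1 x2 - v152 x1 x2
theorem h153 (h : In b E x1 x2) : Enc S E (t153 b) (v153 x1 x2) := enc_sub (h151 h) (h152 h)

def t156 (b : Bx) : TM := tsub (t3 b) (t9 b)
noncomputable def v156 (x1 x2 : ℝ) : ℝ := v3 x1 x2 - v9 x1 x2
theorem h156 (h : In b E x1 x2) : Enc S E (t156 b) (v156 x1 x2) := enc_sub (h3 h) (h9 h)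

def t158 (b : Bx) : TM := tsub (t2 b) (t34 b)
noncomputable def v158 (x1 x2 : ℝ) : ℝ := v2 x1 x2 - v34 x1 x2
theorem h158 (h : In b E x1 x2) : Enc S E (t158 b) (v158 x1 x2) := enc_sub (h2 h) (h34 h)

def t159 (b : Bx) : TM := qn_t (t144 b) (t158 b) (t141 b) (t153 b) (t146 b)
noncomputable def v159 (x1 x2 : ℝ) : ℝ := qn_v (v144 x1 x2) (v158 x1 x2) (v141 x1 x2) (v153 x1 x2) (v146 x1 x2)
theorem h159 (h : In b E x1 x2) : Enc S E (t159 b) (v159 x1 x2) := qn_enc (h144 h) (h158 h) (h141 h) (h153 h) (h146 h)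

def t160 (b : Bx) : TM := tscale 1 4 (t2 b)
noncomputable def v160 (x1 x2 : ℝ) : ℝ := ((1 : ℕ) : ℝ) / ((4 : ℕ) : ℝ) * v2 x1 x2
theorem h160 (h : In b E x1 x2) : Enc S E (t160 b) (v160 x1 x2) := enc_scale 1 (by norm_num) (h2 h)

def t162 (b : Bx) : TM := tsub (t160 b) (t10 b)
noncomputable def v162 (x1 x2 : ℝ) : ℝ := v160 x1 x2 - v10 x1 x2
theorem h162 (h : In b E x1 x2) : Enc S E (t162 b) (v162 x1 x2) := enc_sub (h160 h) (h10 h)

def t163 (b : Bx) : TM := tscale 3 4 (t2 b)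
noncomputable def v163 (x1 x2 : ℝ) : ℝ := ((3 : ℕ) : ℝ) / ((4 : ℕ) : ℝ) * v2 x1 x2
theorem h163 (h : In b E x1 x2) : Enc S E (t163 b) (v163 x1 x2) := enc_scale 3 (by norm_num) (h2 h)

def t165 (b : Bx) : TM := tsub (t9 b) (t163 b)
noncomputable def v165 (x1 x2 : ℝ) : ℝ := v9 x1 x2 - v163 x1 x2
theorem h165 (h : In b E x1 x2) : Enc S E (t165 b) (v165 x1 x2) := enc_sub (h9 h) (h163 h)

def t167 (b : Bx) : TM := tsub (t163 b) (t34 b)
noncomputable def v167 (x1 x2 : ℝ) : ℝ := v163 x1 x2 - v34 x1 x2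
theorem h167 (h : In b E x1 x2) : Enc S E (t167 b) (v167 x1 x2) := enc_sub (h163 h) (h34 h)

def t168 (b : Bx) : TM := tmul S (t3 b) (t10 b)
noncomputable def v168 (x1 x2 : ℝ) : ℝ := v3 x1 x2 * v10 x1 x2
theorem h168 (h : In b E x1 x2) : Enc S E (t168 b) (v168 x1 x2) := enc_mul hS (h3 h) (h10 h)

def t169 (b : Bx) : TM := tsub (t17 b) (t168 b)
noncomputable def v169 (x1 x2 : ℝ) : ℝ := v17 x1 x2 - v168 x1 x2
theorem h169 (h : In b E x1 x2) : Enc S E (t169 b) (v169 x1 x2) := enc_sub (h17 h) (h168 h)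

def t170 (b : Bx) : TM := tadd (t169 b) (t30 b)
noncomputable def v170 (x1 x2 : ℝ) : ℝ := v169 x1 x2 + v30 x1 x2
theorem h170 (h : In b E x1 x2) : Enc S E (t170 b) (v170 x1 x2) := enc_add (h169 h) (h30 h)

def t171 (_b : Bx) : TM := tconst (Nat.div (Nat.mul 1 S) 16) 0 1
noncomputable def v171 (_x1 _x2 : ℝ) : ℝ := ((1 : ℕ) : ℝ) / ((16 : ℕ) : ℝ)
theorem h171 (_h : In b E x1 x2) : Enc S E (t171 b) (v171 x1 x2) := enc_rat E 1 (by norm_num)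

def t172 (b : Bx) : TM := tsub (t170 b) (t171 b)
noncomputable def v172 (x1 x2 : ℝ) : ℝ := v170 x1 x2 - v171 x1 x2
theorem h172 (h : In b E x1 x2) : Enc S E (t172 b) (v172 x1 x2) := enc_sub (h170 h) (h171 h)

def t173 (b : Bx) : TM := tneg (t170 b)
noncomputable def v173 (x1 x2 : ℝ) : ℝ := -(v170 x1 x2)
theorem h173 (h : In b E x1 x2) : Enc S E (t173 b) (v173 x1 x2) := enc_neg (h170 h)

def t174 (b : Bx) : TM := tsub (t173 b) (t171 b)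
noncomputable def v174 (x1 x2 : ℝ) : ℝ := v173 x1 x2 - v171 x1 x2
theorem h174 (h : In b E x1 x2) : Enc S E (t174 b) (v174 x1 x2) := enc_sub (h173 h) (h171 h)

def t175 (b : Bx) : TM := tsub (t48 b) (t47 b)
noncomputable def v175 (x1 x2 : ℝ) : ℝ := v48 x1 x2 - v47 x1 x2
theorem h175 (h : In b E x1 x2) : Enc S E (t175 b) (v175 x1 x2) := enc_sub (h48 h) (h47 h)

def t176 (b : Bx) : TM := tadd (t133 b) (t16 b)
noncomputable def v176 (x1 x2 : ℝ) : ℝ := v133 x1 x2 + v16 x1 x2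
theorem h176 (h : In b E x1 x2) : Enc S E (t176 b) (v176 x1 x2) := enc_add (h133 h) (h16 h)

def t177 (b : Bx) : TM := tneg (t176 b)
noncomputable def v177 (x1 x2 : ℝ) : ℝ := -(v176 x1 x2)
theorem h177 (h : In b E x1 x2) : Enc S E (t177 b) (v177 x1 x2) := enc_neg (h176 h)

def t178 (b : Bx) : TM := tsub (t119 b) (t101 b)
noncomputable def v178 (x1 x2 : ℝ) : ℝ := v119 x1 x2 - v101 x1 x2
theorem h178 (h : In b E x1 x2) : Enc S E (t178 b) (v178 x1 x2) := enc_sub (h119 h) (h101 h)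

def g0 (b : Bx) : Bool := and (pos (t71 b)) (and (pos (t29 b)) (and (pos (t56 b)) (and (pos (t77 b)) (and (pos (t90 b)) (and (pos (t43 b)) (and (pos (t100 b)) (and (pos (t105 b)) (and (pos (t111 b)) (or (pos (t178 b)) (pos (t159 b)))))))))))

def l0 (b : Bx) : Nat := cond (g0 b) 0 (pickb 1 (t159 b) b)

def P0 (x1 x2 : ℝ) : Prop := 0 < v71 x1 x2 ∧ 0 < v29 x1 x2 ∧ 0 < v56 x1 x2 ∧ 0 < v77 x1 x2 ∧ 0 < v90 x1 x2 ∧ 0 < v43 x1 x2 ∧ 0 < v100 x1 x2 ∧ 0 < v105 x1 x2 ∧ 0 < v111 x1 x2 ∧ (0 < v178 x1 x2 ∨ 0 < v159 x1 x2)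

theorem l0_sound (h : In b E x1 x2) (e : l0 b = 0) : P0 x1 x2 := by
  have e1 : g0 b = true := by
    rcases e2 : g0 b with _ | _
    · unfold l0 at e; rw [e2, cond_false] at e; exact absurd e (pickb_ne _ _ _)
    · rfl
  exact ⟨pos_sound hS (h71 h) (Bool.and_eq_true_iff.mp e1).1, ⟨pos_sound hS (h29 h) (Bool.and_eq_true_iff.mp (Bool.and_eq_true_iff.mp e1).2).1, ⟨pos_sound hS (h56 h) (Bool.and_eq_true_iff.mp (Bool.and_eq_true_iff.mp (Bool.and_eq_true_iff.mp e1).2).2).1, ⟨pos_sound hS (h77 h) (Bool.and_eq_true_iff.mp (Bool.and_eq_true_iff.mp (Bool.and_eq_true_iff.mp (Bool.and_eq_true_iff.mp e1).2).2).2).1, ⟨pos_sound hS (h90 h) (Bool.and_eq_true_iff.mp (Bool.and_eq_true_iff.mp (Bool.and_eq_true_iff.mp (Bool.and_eq_true_iff.mp (Bool.and_eq_true_iff.mp e1).2).2).2).2).1, ⟨pos_sound hS (h43 h) (Bool.and_eq_true_iff.mp (Bool.and_eq_true_iff.mp (Bool.and_eq_true_iff.mp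 (Bool.and_eq_true_iff.mp (Bool.and_eq_true_iff.mp (Bool.and_eq_true_iff.mp e1).2).2).2).2).2).1, ⟨pos_sound hS (h100 h) (Bool.and_eq_true_iff.mp (Bool.and_eq_true_iff.mp (Bool.and_eq_true_iff.mp (Bool.and_eq_true_iff.mp (Bool.and_eq_true_iff.mp (Bool.and_eq_true_iff.mp (Bool.and_eq_true_iff.mp e1).2).2).2).2).2).2).1, ⟨pos_sound hS (h105 h) (Bool.and_eq_true_iff.mp (Bool.and_eq_true_iff.mp (Bool.and_eq_true_iff.mp (Bool.and_eq_true_iff.mp (Bool.and_eq_true_iff.mp (Bool.and_eq_true_iff.mp (Bool.and_eq_true_iff.mp (Bool.and_eq_true_iff.mp e1).2).2).2).2).2).2).2).1, ⟨pos_sound hS (h111 h) (Bool.and_eq_true_iff.mp (Bool.and_eq_true_iff.mp (Bool.and_eq_true_iff.mp (Bool.and_eq_true_iff.mp (Bool.and_eq_true_iff.mp (Bool.and_eq_true_iff.mp (Bool.and_eq_true_iff.mp (Bool.and_eq_true_iff.mp (Bool.and_eq_true_iff.mp e1).2).2).2).2).2).2).2).2).1, ((Bool.or_eq_true_iff.mp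 (Bool.and_eq_true_iff.mp (Bool.and_eq_true_iff.mp (Bool.and_eq_true_iff.mp (Bool.and_eq_true_iff.mp (Bool.and_eq_true_iff.mp (Bool.and_eq_true_iff.mp (Bool.and_eq_true_iff.mp (Bool.and_eq_true_iff.mp (Bool.and_eq_true_iff.mp e1).2).2).2).2).2).2).2).2).2).imp (fun a => pos_sound hS (h178 h) a) (fun a => pos_sound hS (h159 h) a))⟩⟩⟩⟩⟩⟩⟩⟩⟩

def g1 (b : Bx) : Bool := or (pos (t162 b)) (or (pos (t143 b)) (or (pos (t156 b)) (or (pos (t165 b)) (or (pos (t167 b)) (or (pos (t172 b)) (or (pos (t174 b)) (or (pos (t145 b)) (or (pos (t175 b)) (pos (t177 b))))))))))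

def l1 (b : Bx) : Nat := cond (g1 b) 0 (l0 b)

def P1 (x1 x2 : ℝ) : Prop := (0 < v162 x1 x2 ∨ 0 < v143 x1 x2 ∨ 0 < v156 x1 x2 ∨ 0 < v165 x1 x2 ∨ 0 < v167 x1 x2 ∨ 0 < v172 x1 x2 ∨ 0 < v174 x1 x2 ∨ 0 < v145 x1 x2 ∨ 0 < v175 x1 x2 ∨ 0 < v177 x1 x2) ∨ (P0 x1 x2)

theorem l1_sound (h : In b E x1 x2) (e : l1 b = 0) : P1 x1 x2 := by
  unfold l1 at e
  rcases e1 : g1 b with _ | _
  · rw [e1, cond_false] at e
    have z0 : l0 b = 0 := e
    exact Or.inr (l0_sound h z0)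
  · exact Or.inl (((Bool.or_eq_true_iff.mp e1).imp (fun a => pos_sound hS (h162 h) a) (fun a => ((Bool.or_eq_true_iff.mp a).imp (fun a => pos_sound hS (h143 h) a) (fun a => ((Bool.or_eq_true_iff.mp a).imp (fun a => pos_sound hS (h156 h) a) (fun a => ((Bool.or_eq_true_iff.mp a).imp (fun a => pos_sound hS (h165 h) a) (fun a => ((Bool.or_eq_true_iff.mp a).imp (fun a => pos_sound hS (h167 h) a) (fun a => ((Bool.or_eq_true_iff.mp a).imp (fun a => pos_sound hS (h172 h) a) (fun a => ((Bool.or_eq_true_iff.mp a).imp (fun a => pos_sound hS (h174 h) a) (fun a => ((Bool.or_eq_true_iff.mp a).imp (fun a => pos_sound hS (h145 h) a) (fun a => ((Bool.or_eq_true_iff.mp a).imp (fun a => pos_sound hS (h175 h) a) (fun a => pos_sound hS (h177 h) a)))))))))))))))))))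

def f (b : Bx) : Nat := l1 b

/-- the statement -/
def Q (x1 x2 : ℝ) : Prop := P1 x1 x2

theorem f_sound (b : Bx) (hb : f b = 0) (x1 x2 : ℝ) (hm : Mem S b x1 x2) : Q x1 x2 := by
  obtain ⟨E, h⟩ := pt_of_mem hm
  have h : In b E x1 x2 := h
  unfold f at hb
  have e := hb
  have z1 : l1 b = 0 := e
  exact (l1_sound h z1)

/-- the box -/
def b0 : Bx := ⟨268435456, 0, 268435457, 322122547, 0, 322122549⟩

theorem chk_all {n : ℕ} {b : Bx} (h : chk f n b = true) (x1 x2 : ℝ) (hm : Mem S b x1 x2) : Q x1 x2 :=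
  chk_sound (fun b hb x1 x2 hm => f_sound b hb x1 x2 hm) n b h x1 x2 hm


end Pool.Agent.Strip051.LB.ChA00V1_pm_123z
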