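import Pool.Agent.Strip051.LB.ChA00V1_pm_123z.Defs
import Pool.Agent.Strip051.LB.Slope
import Pool.Agent.Strip051.LB.Star
import Pool.Agent.Strip051.LB.Cf

/-! # LINE tight chart ChA00V1_pm_123z: slopes -/

namespace Pool.Agent.Strip051.LB.ChA00V1_pm_123z

open Pool.Agent.Strip051.LB Pool.Agent.Strip051.LB.Fn Pool.Agent.Strip051.LB.Fc Pool.Agent.Strip051.LB.Fd Pool.Agent.StripNear

set_option maxRecDepth 100000
set_option linter.all false

noncomputable def v19 (x1 x2 : ℝ) : ℝ := v17 x1 x2 - v18 x1 x2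

noncomputable def v32 (x1 x2 : ℝ) : ℝ := -(v30 x1 x2)

noncomputable def v35 (x1 x2 : ℝ) : ℝ := v22 x1 x2 - v9 x1 x2

noncomputable def v49 (x1 x2 : ℝ) : ℝ := v47 x1 x2 - v48 x1 x2

noncomputable def v51 (x1 x2 : ℝ) : ℝ := -(v12 x1 x2)

noncomputable def v52 (x1 x2 : ℝ) : ℝ := (v22 x1 x2) ^ 2

noncomputable def v54 (x1 x2 : ℝ) : ℝ := -(v53 x1 x2)

noncomputable def v55 (x1 x2 : ℝ) : ℝ := v12 x1 x2 - v52 x1 x2

noncomputable def v60 (x1 x2 : ℝ) : ℝ := -(v58 x1 x2)

noncomputable def v61 (x1 x2 : ℝ) : ℝ := (v59 x1 x2) ^ 2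

noncomputable def v64 (x1 x2 : ℝ) : ℝ := -(v63 x1 x2)

noncomputable def v65 (x1 x2 : ℝ) : ℝ := v5 x1 x2 - v61 x1 x2

noncomputable def v67 (x1 x2 : ℝ) : ℝ := (v66 x1 x2) ^ 2

noncomputable def v69 (x1 x2 : ℝ) : ℝ := -(v68 x1 x2)

noncomputable def v70 (x1 x2 : ℝ) : ℝ := v65 x1 x2 - v67 x1 x2

noncomputable def v75 (x1 x2 : ℝ) : ℝ := v33 x1 x2 * v74 x1 x2

noncomputable def v79 (x1 x2 : ℝ) : ℝ := v75 x1 x2 * v78 x1 x2

noncomputable def v81 (x1 x2 : ℝ) : ℝ := -(v72 x1 x2)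

noncomputable def v94 (x1 x2 : ℝ) : ℝ := -(v93 x1 x2)

noncomputable def v95 (x1 x2 : ℝ) : ℝ := v84 x1 x2 * v91 x1 x2

noncomputable def v124 (x1 x2 : ℝ) : ℝ := v49 x1 x2 * v121 x1 x2

noncomputable def v125 (x1 x2 : ℝ) : ℝ := v79 x1 x2 + v124 x1 x2

noncomputable def v134 (x1 x2 : ℝ) : ℝ := v14 x1 x2 * v22 x1 x2

noncomputable def v135 (x1 x2 : ℝ) : ℝ := -(v14 x1 x2)

noncomputable def v136 (x1 x2 : ℝ) : ℝ := v31 x1 x2 * v10 x1 x2

noncomputable def v138 (x1 x2 : ℝ) : ℝ := v134 x1 x2 + v136 x1 x2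

noncomputable def v140 (x1 x2 : ℝ) : ℝ := v138 x1 x2 * v72 x1 x2

noncomputable def v142 (x1 x2 : ℝ) : ℝ := v140 x1 x2 - v16 x1 x2

noncomputable def v147 (x1 x2 : ℝ) : ℝ := v22 x1 x2 - v3 x1 x2

noncomputable def v179 (x1 x2 : ℝ) : ℝ := v66 x1 x2 - v2 x1 x2

structure Cx (x1 x2 : ℝ) : Prop where
  hc : v14 x1 x2 ^ 2 + v10 x1 x2 ^ 2 = 1
  p29 : 0 < v29 x1 x2
  p56 : 0 < v56 x1 x2
  p77 : 0 < v77 x1 x2
  p90 : 0 < v90 x1 x2
  p43 : 0 < v43 x1 x2
  p100 : 0 < v100 x1 x2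
  p105 : 0 < v105 x1 x2
  p111 : 0 < v111 x1 x2

variable {x1 x2 : ℝ}

theorem s3q (x1 x2 : ℝ) : v2 x1 x2 ^ 2 = 3 := by
  rw [v2]; exact s3sq

theorem s3ne (x1 x2 : ℝ) : v2 x1 x2 ≠ 0 := by
  rw [v2]; positivity

theorem s9 (c : Cx x1 x2) : v9 x1 x2 = v22 x1 x2 + v35 x1 x2 * v51 x1 x2 := by
  simp only [v12, v35, v51]
  (try push_cast)
  ring

theorem s28 (c : Cx x1 x2) : v28 x1 x2 = v52 x1 x2 + v35 x1 x2 * v54 x1 x2 := by
  have a0 : (v9 x1 x2 + v22 x1 x2) * v9 x1 x2 = (v9 x1 x2 + v22 x1 x2) * (v22 x1 x2 + v35 x1 x2 * v51 x1 x2) := congrArg (fun z => (v9 x1 x2 + v22 x1 x2) * z) (s9 c)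
  try simp only [v2, v3, v9, v10, v12, v20, v22, v28, v35, v51, v52, v53, v54] at a0
  simp only [v2, v3, v9, v10, v12, v20, v22, v28, v35, v51, v52, v53, v54]
  (try push_cast at a0 ⊢)
  first | linear_combination a0 | ring | grind

theorem s29 (c : Cx x1 x2) : v29 x1 x2 = v55 x1 x2 + v35 x1 x2 * v53 x1 x2 := by
  have a1 := s28 c
  try simp only [v2, v3, v9, v10, v12, v20, v22, v29, v35, v53, v54, v55] at a1
  simp only [v2, v3, v9, v10, v12, v20, v22, v29, v35, v53, v54, v55]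
  (try push_cast at a1 ⊢)
  first | linear_combination -a1 | ring | grind

theorem q30 (c : Cx x1 x2) : v55 x1 x2 = v31 x1 x2 ^ 2 := by
  have hc := c.hc
  have h3 := s3q x1 x2
  simp only [v3, v12, v17, v18, v20, v21, v22, v31, v52, v55] at hc ⊢
  push_cast at hc ⊢
  grind

theorem s30 (c : Cx x1 x2) : v30 x1 x2 = v31 x1 x2 + v35 x1 x2 * v58 x1 x2 := by
  have a0 := s29 c
  have e : 0 < Real.sqrt (v29 x1 x2) + v31 x1 x2 := by
    have e := c.p56
    simp only [v12, v17, v29, v30, v31, v56] at e ⊢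
    push_cast at e ⊢
    linarith
  have b := sl_sqrt a0 (q30 c) (le_of_lt c.p29) e
  clear a0
  try simp only [v2, v3, v9, v10, v12, v17, v20, v22, v29, v30, v31, v35, v53, v55, v56, v57, v58] at b
  simp only [v2, v3, v9, v10, v12, v17, v20, v22, v29, v30, v31, v35, v53, v55, v56, v57, v58]
  (try push_cast at b ⊢)
  first | linear_combination b | ring | grind

theorem s32 (c : Cx x1 x2) : v32 x1 x2 = v19 x1 x2 + v35 x1 x2 * v60 x1 x2 := by
  have a0 := s30 c
  try simp only [v2, v3, v9, v10, v17, v19, v20, v22, v31, v32, v35, v60] at a0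
  simp only [v2, v3, v9, v10, v17, v19, v20, v22, v31, v32, v35, v60]
  (try push_cast at a0 ⊢)
  first | linear_combination -a0 | ring | grind

theorem s33 (c : Cx x1 x2) : v33 x1 x2 = v59 x1 x2 + v35 x1 x2 * v60 x1 x2 := by
  have a1 := s30 c
  try simp only [v2, v3, v9, v10, v17, v20, v22, v31, v33, v35, v59, v60] at a1
  simp only [v2, v3, v9, v10, v17, v20, v22, v31, v33, v35, v59, v60]
  (try push_cast at a1 ⊢)
  first | linear_combination -a1 | ring | grind

theorem s34 (c : Cx x1 x2) : v34 x1 x2 = v66 x1 x2 + v35 x1 x2 * v51 x1 x2 := by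
  have a1 := s9 c
  try simp only [v2, v3, v9, v10, v12, v20, v22, v34, v35, v51, v66] at a1
  simp only [v2, v3, v9, v10, v12, v20, v22, v34, v35, v51, v66]
  (try push_cast at a1 ⊢)
  first | linear_combination a1 | ring | grind

theorem s46 (c : Cx x1 x2) : v46 x1 x2 = v61 x1 x2 + v35 x1 x2 * v64 x1 x2 := by
  have a0 : (v33 x1 x2 + v59 x1 x2) * v33 x1 x2 = (v33 x1 x2 + v59 x1 x2) * (v59 x1 x2 + v35 x1 x2 * v60 x1 x2) := congrArg (fun z => (v33 x1 x2 + v59 x1 x2) * z) (s33 c)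
  try simp only [v2, v3, v9, v10, v17, v20, v22, v31, v33, v35, v46, v59, v60, v61, v62, v63, v64] at a0
  simp only [v2, v3, v9, v10, v17, v20, v22, v31, v33, v35, v46, v59, v60, v61, v62, v63, v64]
  (try push_cast at a0 ⊢)
  first | linear_combination a0 | ring | grind

theorem s47 (c : Cx x1 x2) : v47 x1 x2 = v65 x1 x2 + v35 x1 x2 * v63 x1 x2 := by
  have a1 := s46 c
  try simp only [v2, v3, v5, v9, v10, v20, v22, v35, v47, v64, v65] at a1
  simp only [v2, v3, v5, v9, v10, v20, v22, v35, v47, v64, v65]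
  (try push_cast at a1 ⊢)
  first | linear_combination -a1 | ring | grind

theorem s48 (c : Cx x1 x2) : v48 x1 x2 = v67 x1 x2 + v35 x1 x2 * v69 x1 x2 := by
  have a0 : (v34 x1 x2 + v66 x1 x2) * v34 x1 x2 = (v34 x1 x2 + v66 x1 x2) * (v66 x1 x2 + v35 x1 x2 * v51 x1 x2) := congrArg (fun z => (v34 x1 x2 + v66 x1 x2) * z) (s34 c)
  try simp only [v2, v3, v9, v10, v12, v20, v22, v34, v35, v48, v51, v66, v67, v68, v69] at a0
  simp only [v2, v3, v9, v10, v12, v20, v22, v34, v35, v48, v51, v66, v67, v68, v69]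
  (try push_cast at a0 ⊢)
  first | linear_combination a0 | ring | grind

theorem s49 (c : Cx x1 x2) : v49 x1 x2 = v70 x1 x2 + v35 x1 x2 * v71 x1 x2 := by
  have a0 := s47 c
  have a1 := s48 c
  try simp only [v2, v3, v5, v9, v10, v20, v22, v34, v35, v47, v49, v65, v66, v68, v69, v70, v71] at a0
  try simp only [v2, v3, v5, v9, v10, v20, v22, v34, v35, v47, v49, v65, v66, v68, v69, v70, v71] at a1
  simp only [v2, v3, v5, v9, v10, v20, v22, v34, v35, v47, v49, v65, v66, v68, v69, v70, v71]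
  (try push_cast at a0 a1 ⊢)
  first | linear_combination a0 - a1 | ring | grind

theorem s73 (c : Cx x1 x2) : v73 x1 x2 = v80 x1 x2 + v35 x1 x2 * v81 x1 x2 := by
  have a0 : (v72 x1 x2) * v34 x1 x2 = (v72 x1 x2) * (v66 x1 x2 + v35 x1 x2 * v51 x1 x2) := congrArg (fun z => (v72 x1 x2) * z) (s34 c)
  try simp only [v2, v3, v9, v10, v12, v20, v22, v34, v35, v51, v66, v73, v80, v81] at a0
  simp only [v2, v3, v9, v10, v12, v20, v22, v34, v35, v51, v66, v73, v80, v81]
  (try push_cast at a0 ⊢)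
  first | linear_combination a0 | ring | grind

theorem s74 (c : Cx x1 x2) : v74 x1 x2 = v82 x1 x2 + v35 x1 x2 * v83 x1 x2 := by
  have a0 := s73 c
  have a1 := s33 c
  try simp only [v2, v3, v9, v10, v17, v20, v22, v31, v33, v35, v59, v60, v74, v81, v82, v83] at a0
  try simp only [v2, v3, v9, v10, v17, v20, v22, v31, v33, v35, v59, v60, v74, v81, v82, v83] at a1
  simp only [v2, v3, v9, v10, v17, v20, v22, v31, v33, v35, v59, v60, v74, v81, v82, v83]
  (try push_cast at a0 a1 ⊢)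
  first | linear_combination a0 - a1 | ring | grind

theorem s75 (c : Cx x1 x2) : v75 x1 x2 = v84 x1 x2 + v35 x1 x2 * v88 x1 x2 := by
  have a0 : (v74 x1 x2) * v33 x1 x2 = (v74 x1 x2) * (v59 x1 x2 + v35 x1 x2 * v60 x1 x2) := congrArg (fun z => (v74 x1 x2) * z) (s33 c)
  have a1 : (v59 x1 x2) * v74 x1 x2 = (v59 x1 x2) * (v82 x1 x2 + v35 x1 x2 * v83 x1 x2) := congrArg (fun z => (v59 x1 x2) * z) (s74 c)
  try simp only [v2, v3, v9, v10, v17, v20, v22, v31, v33, v35, v59, v60, v74, v75, v82, v83, v84, v85, v87, v88] at a0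
  try simp only [v2, v3, v9, v10, v17, v20, v22, v31, v33, v35, v59, v60, v74, v75, v82, v83, v84, v85, v87, v88] at a1
  simp only [v2, v3, v9, v10, v17, v20, v22, v31, v33, v35, v59, v60, v74, v75, v82, v83, v84, v85, v87, v88]
  (try push_cast at a0 a1 ⊢)
  first | linear_combination a0 + a1 | ring | grind

theorem s76 (c : Cx x1 x2) : v76 x1 x2 = v89 x1 x2 + v35 x1 x2 * v81 x1 x2 := by
  have a1 := s73 c
  try simp only [v2, v3, v9, v10, v12, v20, v22, v35, v76, v81, v89] at a1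
  simp only [v2, v3, v9, v10, v12, v20, v22, v35, v76, v81, v89]
  (try push_cast at a1 ⊢)
  first | linear_combination a1 | ring | grind

theorem s77 (c : Cx x1 x2) : v77 x1 x2 = v90 x1 x2 + v35 x1 x2 * v83 x1 x2 := by
  have a0 := s76 c
  have a1 := s33 c
  try simp only [v2, v3, v9, v10, v12, v17, v20, v22, v31, v33, v35, v59, v60, v76, v77, v81, v83, v89, v90] at a0
  try simp only [v2, v3, v9, v10, v12, v17, v20, v22, v31, v33, v35, v59, v60, v76, v77, v81, v83, v89, v90] at a1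
  simp only [v2, v3, v9, v10, v12, v17, v20, v22, v31, v33, v35, v59, v60, v76, v77, v81, v83, v89, v90]
  (try push_cast at a0 a1 ⊢)
  first | linear_combination a0 - a1 | ring | grind

theorem s78 (c : Cx x1 x2) : v78 x1 x2 = v91 x1 x2 + v35 x1 x2 * v94 x1 x2 := by
  have a0 := s77 c
  have b := sl_inv a0 (c.p77).ne' (c.p90).ne'
  clear a0
  try simp only [v2, v3, v9, v10, v12, v17, v20, v22, v31, v33, v35, v59, v76, v77, v78, v83, v89, v90, v91, v92, v93, v94] at b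
  simp only [v2, v3, v9, v10, v12, v17, v20, v22, v31, v33, v35, v59, v76, v77, v78, v83, v89, v90, v91, v92, v93, v94]
  (try push_cast at b ⊢)
  first | linear_combination b | ring | grind

theorem s79 (c : Cx x1 x2) : v79 x1 x2 = v95 x1 x2 + v35 x1 x2 * v99 x1 x2 := by
  have a0 : (v78 x1 x2) * v75 x1 x2 = (v78 x1 x2) * (v84 x1 x2 + v35 x1 x2 * v88 x1 x2) := congrArg (fun z => (v78 x1 x2) * z) (s75 c)
  have a1 : (v84 x1 x2) * v78 x1 x2 = (v84 x1 x2) * (v91 x1 x2 + v35 x1 x2 * v94 x1 x2) := congrArg (fun z => (v84 x1 x2) * z) (s78 c)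
  try simp only [v2, v3, v9, v10, v20, v22, v35, v79, v88, v94, v95, v96, v97, v99] at a0
  try simp only [v2, v3, v9, v10, v20, v22, v35, v79, v88, v94, v95, v96, v97, v99] at a1
  simp only [v2, v3, v9, v10, v20, v22, v35, v79, v88, v94, v95, v96, v97, v99]
  (try push_cast at a0 a1 ⊢)
  first | linear_combination a0 + a1 | ring | grind

theorem s128 (c : Cx x1 x2) : v128 x1 x2 = v134 x1 x2 + v35 x1 x2 * v135 x1 x2 := by
  have a1 : (v14 x1 x2) * v9 x1 x2 = (v14 x1 x2) * (v22 x1 x2 + v35 x1 x2 * v51 x1 x2) := congrArg (fun z => (v14 x1 x2) * z) (s9 c)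
  try simp only [v2, v3, v9, v10, v12, v20, v22, v35, v51, v128, v134, v135] at a1
  simp only [v2, v3, v9, v10, v12, v20, v22, v35, v51, v128, v134, v135]
  (try push_cast at a1 ⊢)
  first | linear_combination a1 | ring | grind

theorem s129 (c : Cx x1 x2) : v129 x1 x2 = v136 x1 x2 + v35 x1 x2 * v137 x1 x2 := by
  have a0 : (v10 x1 x2) * v30 x1 x2 = (v10 x1 x2) * (v31 x1 x2 + v35 x1 x2 * v58 x1 x2) := congrArg (fun z => (v10 x1 x2) * z) (s30 c)
  try simp only [v2, v3, v9, v10, v17, v20, v22, v31, v35, v129, v136, v137] at a0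
  simp only [v2, v3, v9, v10, v17, v20, v22, v31, v35, v129, v136, v137]
  (try push_cast at a0 ⊢)
  first | linear_combination a0 | ring | grind

theorem s131 (c : Cx x1 x2) : v131 x1 x2 = v138 x1 x2 + v35 x1 x2 * v139 x1 x2 := by
  have a0 := s128 c
  have a1 := s129 c
  try simp only [v2, v3, v9, v10, v20, v22, v35, v131, v135, v138, v139] at a0
  try simp only [v2, v3, v9, v10, v20, v22, v35, v131, v135, v138, v139] at a1
  simp only [v2, v3, v9, v10, v20, v22, v35, v131, v135, v138, v139]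
  (try push_cast at a0 a1 ⊢)
  first | linear_combination a0 + a1 | ring | grind

theorem s132 (c : Cx x1 x2) : v132 x1 x2 = v140 x1 x2 + v35 x1 x2 * v141 x1 x2 := by
  have a0 : (v72 x1 x2) * v131 x1 x2 = (v72 x1 x2) * (v138 x1 x2 + v35 x1 x2 * v139 x1 x2) := congrArg (fun z => (v72 x1 x2) * z) (s131 c)
  try simp only [v2, v3, v9, v10, v20, v22, v35, v131, v132, v138, v139, v140, v141] at a0
  simp only [v2, v3, v9, v10, v20, v22, v35, v131, v132, v138, v139, v140, v141]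
  (try push_cast at a0 ⊢)
  first | linear_combination a0 | ring | grind

theorem s133 (c : Cx x1 x2) : v133 x1 x2 = v142 x1 x2 + v35 x1 x2 * v141 x1 x2 := by
  have a0 := s132 c
  try simp only [v2, v3, v9, v10, v16, v20, v22, v35, v133, v142] at a0
  simp only [v2, v3, v9, v10, v16, v20, v22, v35, v133, v142]
  (try push_cast at a0 ⊢)
  first | linear_combination a0 | ring | grind

theorem s144 (c : Cx x1 x2) : v144 x1 x2 = v147 x1 x2 + v35 x1 x2 * v51 x1 x2 := by
  have a0 := s9 c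
  try simp only [v2, v3, v9, v10, v12, v20, v22, v35, v51, v144, v147] at a0
  simp only [v2, v3, v9, v10, v12, v20, v22, v35, v51, v144, v147]
  (try push_cast at a0 ⊢)
  first | linear_combination a0 | ring | grind

theorem s145 (c : Cx x1 x2) : v145 x1 x2 = v179 x1 x2 + v35 x1 x2 * v51 x1 x2 := by
  have a0 := s34 c
  try simp only [v2, v3, v9, v10, v12, v20, v22, v34, v35, v51, v66, v145, v179] at a0
  simp only [v2, v3, v9, v10, v12, v20, v22, v34, v35, v51, v66, v145, v179]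
  (try push_cast at a0 ⊢)
  first | linear_combination a0 | ring | grind

theorem bD (c : Cx x1 x2) : v70 x1 x2 = 0 := by
  have hc := c.hc
  have h3 := s3q x1 x2
  simp only [v3, v5, v17, v18, v20, v21, v22, v31, v59, v61, v65, v66, v67, v70] at hc ⊢
  push_cast at hc ⊢
  grind

theorem sD (c : Cx x1 x2) : v49 x1 x2 = v35 x1 x2 * v71 x1 x2 := by
  have h := s49 c
  rw [bD c, zero_add] at h
  exact h

theorem s125 (c : Cx x1 x2) : v125 x1 x2 = v95 x1 x2 + v35 x1 x2 * v127 x1 x2 := by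
  have hA := s79 c
  have hd := sD c
  have hK : v121 x1 x2 * v49 x1 x2 = v121 x1 x2 * (v35 x1 x2 * v71 x1 x2) := congrArg (fun z => v121 x1 x2 * z) hd
  try simp only [v2, v3, v5, v9, v10, v20, v22, v33, v34, v35, v47, v49, v66, v68, v71, v99, v124, v125, v126, v127] at hA
  try simp only [v2, v3, v5, v9, v10, v20, v22, v33, v34, v35, v47, v49, v66, v68, v71, v99, v124, v125, v126, v127] at hK
  simp only [v2, v3, v5, v9, v10, v20, v22, v33, v34, v35, v47, v49, v66, v68, v71, v99, v124, v125, v126, v127]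
  (try push_cast at hA hK ⊢)
  first | linear_combination (hA + hK) | grind

theorem bE (c : Cx x1 x2) : v142 x1 x2 = 0 := by
  have hc := c.hc
  have h3 := s3q x1 x2
  have g0 : v2 x1 x2 ≠ 0 := s3ne x1 x2
  simp only [v3, v16, v17, v18, v20, v21, v22, v31, v72, v134, v136, v138, v140, v142] at hc ⊢
  push_cast at hc ⊢
  grind

theorem hE (c : Cx x1 x2) : v133 x1 x2 = v35 x1 x2 * v141 x1 x2 := by
  have h := s133 c
  rw [bE c, zero_add] at h
  exact h

theorem bS (c : Cx x1 x2) : v95 x1 x2 - v45 x1 x2 - v19 x1 x2 = 0 := by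
  have hc := c.hc
  have h3 := s3q x1 x2
  have g0 := (c.p43).ne'
  have g2 := (c.p90).ne'
  have g1 : v2 x1 x2 ≠ 0 := s3ne x1 x2
  simp only [v3, v12, v17, v18, v19, v20, v21, v22, v31, v36, v37, v38, v39, v40, v41, v42, v43, v44, v45, v59, v66, v72, v80, v82, v84, v89, v90, v91, v95] at hc g0 g2 ⊢
  push_cast at hc g0 g2 ⊢
  grind

theorem hS (c : Cx x1 x2) : v125 x1 x2 - v45 x1 x2 - v32 x1 x2 = v35 x1 x2 * v146 x1 x2 := by
  have a3 := s125 c
  have a2 := s32 c
  have b := bS c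
  try simp only [v2, v3, v9, v10, v17, v19, v20, v22, v32, v35, v60, v99, v125, v127, v146] at a3
  try simp only [v2, v3, v9, v10, v17, v19, v20, v22, v32, v35, v60, v99, v125, v127, v146] at a2
  try simp only [v2, v3, v9, v10, v17, v19, v20, v22, v32, v35, v60, v99, v125, v127, v146] at b
  try simp only [v2, v3, v9, v10, v17, v19, v20, v22, v32, v35, v60, v99, v125, v127, v146]
  (try push_cast at a3 a2 b ⊢)
  first | linear_combination a3 - a2 + b | grind

theorem bC (c : Cx x1 x2) : v143 x1 x2 * v19 x1 x2 - v147 x1 x2 * v45 x1 x2 = 0 := by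
  have hc := c.hc
  have h3 := s3q x1 x2
  have g0 := (c.p43).ne'
  simp only [v3, v12, v17, v18, v19, v20, v21, v22, v36, v37, v38, v39, v40, v41, v42, v43, v44, v45, v143, v147] at hc g0 ⊢
  push_cast at hc g0 ⊢
  grind

theorem hC (c : Cx x1 x2) : v143 x1 x2 * v32 x1 x2 - v144 x1 x2 * v45 x1 x2 = v35 x1 x2 * v151 x1 x2 := by
  have a2 : v143 x1 x2 * v32 x1 x2 = v143 x1 x2 * (v19 x1 x2 + v35 x1 x2 * v60 x1 x2) := congrArg (fun z => v143 x1 x2 * z) (s32 c)
  have a3 : v45 x1 x2 * v144 x1 x2 = v45 x1 x2 * (v147 x1 x2 + v35 x1 x2 * v51 x1 x2) := congrArg (fun z => v45 x1 x2 * z) (s144 c)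
  have b := bC c
  try simp only [v2, v3, v9, v10, v12, v17, v19, v20, v22, v32, v35, v51, v60, v143, v144, v147, v148, v151] at a2
  try simp only [v2, v3, v9, v10, v12, v17, v19, v20, v22, v32, v35, v51, v60, v143, v144, v147, v148, v151] at a3
  try simp only [v2, v3, v9, v10, v12, v17, v19, v20, v22, v32, v35, v51, v60, v143, v144, v147, v148, v151] at b
  simp only [v2, v3, v9, v10, v12, v17, v19, v20, v22, v32, v35, v51, v60, v143, v144, v147, v148, v151]
  (try push_cast at a2 a3 b ⊢)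
  first | linear_combination a2 - a3 + b | grind

theorem hT (x1 x2 : ℝ) : v145 x1 x2 = v143 x1 x2 + v144 x1 x2 := by
  simp only [v2, v3, v9, v10, v34, v143, v144, v145]
  push_cast
  ring

theorem hG (c : Cx x1 x2) : (-v145 x1 x2) * (-v32 x1 x2) - v144 x1 x2 * v125 x1 x2 = v35 x1 x2 * v153 x1 x2 := by
  have b := hC c
  have m0 : v144 x1 x2 * (v125 x1 x2 - v45 x1 x2 - v32 x1 x2) = v144 x1 x2 * (v35 x1 x2 * v146 x1 x2) := congrArg (fun z => v144 x1 x2 * z) (hS c)
  have m1 : v32 x1 x2 * v145 x1 x2 = v32 x1 x2 * (v143 x1 x2 + v144 x1 x2) := congrArg (fun z => v32 x1 x2 * z) (hT x1 x2)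
  try simp only [v2, v3, v9, v10, v20, v22, v32, v34, v35, v99, v125, v127, v143, v144, v145, v146, v151, v152, v153] at b
  try simp only [v2, v3, v9, v10, v20, v22, v32, v34, v35, v99, v125, v127, v143, v144, v145, v146, v151, v152, v153] at m0
  try simp only [v2, v3, v9, v10, v20, v22, v32, v34, v35, v99, v125, v127, v143, v144, v145, v146, v151, v152, v153] at m1
  try simp only [v2, v3, v9, v10, v20, v22, v32, v34, v35, v99, v125, v127, v143, v144, v145, v146, v151, v152, v153]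
  (try push_cast at b m0 m1 ⊢)
  first | linear_combination b - m0 + m1 | grind

theorem core (c : Cx x1 x2) (hW : 0 ≤ v35 x1 x2) (hWQ : 0 ≤ v35 x1 x2 * v159 x1 x2) (h1 : 0 ≤ v144 x1 x2) (h2 : 0 ≤ (-v145 x1 x2)) (h3 : v144 x1 x2 + (-v145 x1 x2) ≤ Pool.Agent.StripNear.h0) :
    0 ≤ starn_v (v133 x1 x2) (v144 x1 x2) ((-v145 x1 x2)) ((-v32 x1 x2)) (v125 x1 x2) (v45 x1 x2) := by
  have hD : (-v32 x1 x2) + v125 x1 x2 - v45 x1 x2 = v35 x1 x2 * v146 x1 x2 := by
    have b := hS c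
    linear_combination b
  have k := starn_ge hW h1 h2 h3 (hE c) hD (hG c)
  have f1 : (-v145 x1 x2) = v158 x1 x2 := by
    simp only [v2, v3, v9, v10, v34, v144, v145, v158]
    try (push_cast; ring)
  refine le_trans hWQ (le_trans (le_of_eq ?_) k)
  rw [v159]
  rw [f1]

end Pool.Agent.Strip051.LB.ChA00V1_pm_123z
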